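import Mathlib
import Pool.Agent.N824.CJ.BridgeK

/-!
# Dominating forms of foliations from coarse maps: the relative theorem

`M` is a manifold of dimension `n` (Hausdorff, second countable; closed, or open, for instance a
knot exterior or a covering space), `α` a continuous one-form without zeros on `M`, `Z` a closed
subset and `ω₀` a smooth closed two-form on `M`. The theorem characterizes when there is a smooth
closed two-form `σ = ω₀ + dβ`, with `β` smooth of compact support in `M \ Z`, which is
nondegenerate on the hyperplanes `ker α`.

If `ker α` is the tangent plane field of a co-oriented foliation of a closed three-manifold, the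
existence of a closed form nondegenerate on the leaves is equivalent to tautness (Rummler,
Sullivan; not used here). The relative form is about the extension of a given dominating form from
`Z`, for instance from the complement of a solid torus (Dehn filling) or of a ball, or about open
manifolds and dominating forms prescribed near infinity.

The criterion: there are an open set `U` containing `Z`, with compact complement, on which `ω₀` is
nondegenerate on `ker α`, and maps `f r : M → (ℝ²)^N`, for arbitrarily small scales `r`, which
vanish on `U`, have no regularity besides local integrability, are unrelated for different `r`, and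
near the points outside `U`, on the balls of radius comparable with `r`, are *in the mean* close
to affine maps, with an error `δ` which is small compared with the nondegeneracy, on the
hyperplanes `ker α`, of `ω₀ + L^*(∑ dx ∧ dy)`, `L` the linear part.

The definitions are in `Pool/Agent/N824/CJ/PubK.lean` (`kerVecs`, `kerPairs`, `NondegOnKer`,
`IsContForm`), `Pool/Agent/N824/CJ/PubV.lean` (`HasCoarseRelOn`, `CoarseAtOn`, `RobustOn`),
`Pool/Agent/N824/CJ/PubR.lean` (`InClassRel`), `Pool/Agent/N824/CJ/Pub.lean` (`AffineInMean`,
`GoodParam`) and in the starting file `Pool/Agent/Y501/SY/Pub.lean` (forms).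
-/

set_option autoImplicit false

open scoped Manifold ContDiff

namespace Pool.Agent.Results.MP_3d425c_gt.CoarseDominatingForms

open Pool.Agent.Y501.SYP
open Pool.Agent.N824.CJP

theorem result (n : ℕ) : ∃ C₀ : ℕ → ℝ, ∀ C : ℕ → ℝ, (∀ N, C₀ N ≤ C N) →
    ∀ (M : Type) [TopologicalSpace M] [ChartedSpace (ES n) M] [IsManifold 𝓘(ℝ, ES n) ∞ M]
      [T2Space M] [SecondCountableTopology M] (α : Form (ES n) M 1) (Z : Set M)
      (ω₀ : Form (ES n) M 2),
      IsContForm α → (∀ y, α y ≠ 0) → IsClosed Z → IsSmooth ω₀ → IsClosedForm ω₀ →
      ((∃ σ : Form (ES n) M 2, InClassRel Z ω₀ σ ∧ NondegOnKer α σ) ↔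
        HasCoarseRelOn (kerVecs α) n (vol n) C Z ω₀ (kerPairs α)) :=
  ⟨fun N => 4 * N * Pool.Agent.N824.CJ.CJ n ^ 2, fun C hC M _ _ _ _ _ α Z ω₀ hα h0 hZ hs hc =>
    mainKRP n C hC M α hα h0 Z hZ ω₀ hs hc⟩

end Pool.Agent.Results.MP_3d425c_gt.CoarseDominatingForms
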